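import Pool.Agent.Work.MP_a2bf38_gt.Fu.K.Setup
import Pool.Agent.Work.MP_a2bf38_gt.Fu.G.Chart2
import Pool.Agent.Work.MP_a2bf38_gt.Fu.K.Mollify
import Pool.Agent.Work.MP_a2bf38_gt.Fu.K.PshCOf
import Pool.Agent.Work.MP_a2bf38_gt.Fu.H.Gen
import Mathlib.Analysis.Analytic.IsolatedZeros
import Mathlib.Analysis.Complex.CauchyIntegral

section

/-!
# Fibrations over orbifolds, with fibres of any dimension

`f : M → Y` is a holomorphic map from a compact complex manifold of dimension `n` onto a complex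
orbifold `Y` of dimension `m`.  `σ : X → Y` is a modification of `Y`, an isomorphism outside of the
closed set `h = 0`, with `X` a complex manifold, and over the charts of `X` there are semistable models
of `f`.
-/

open scoped ContDiff ENNReal ComplexOrder
open Set Pool.Agent.ToricKRF Pool.Agent.ToricKRF.G Pool.Agent.KRFS Pool.Agent.KRFF
  Pool.Agent.KRFG

namespace Pool.Agent.KRFH

/-- `q j`, on the ball of radius `10`, are the local uniformizations of the orbifold `Y`: open maps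
whose fibres are the orbits of unitary maps.  The images of the unit balls cover `Y`. -/
structure IsOrbifold {Y : Type} [TopologicalSpace Y] {m : ℕ} {P : Type} (q : P → Cn m → Y) :
    Prop where
  cont : ∀ j, ContinuousOn (q j) {y | nsq y < 100}
  isOpen : ∀ j, ∀ U ⊆ {y : Cn m | nsq y < 100}, IsOpen U → IsOpen (q j '' U)
  cover : ∀ p, ∃ j y, nsq y ≤ 1 ∧ q j y = p
  deck : ∀ j y y', nsq y < 100 → nsq y' < 100 → q j y = q j y' → ∃ A : Cn m →ₗ[ℝ] Cn m,
    (∀ v, nsq (A v) = nsq v) ∧ A y = y' ∧ ∀ v, nsq v < 100 → q j (A v) = q j v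
  trans : ∃ C r : ℝ, 0 < C ∧ 0 < r ∧ ∀ j j' y y', nsq y ≤ 25 → nsq y' ≤ 25 → q j y = q j' y' →
    ∀ v, nsq (v - y) ≤ r ^ 2 → ∃ v', nsq (v' - y') ≤ C ^ 2 * nsq (v - y) ∧ q j' v' = q j v

/-- `L` is a lift of the map `p` to the chart `j`. -/
def IsLift {Y : Type} {m d : ℕ} {P : Type} (q : P → Cn m → Y) (j : P) (p : Cn d → Y)
    (L : Cn d → Cn m) (U : Set (Cn d)) : Prop :=
  HolOn L U ∧ ∀ w ∈ U, nsq (L w) < 100 ∧ q j (L w) = p w

/-- `f : M → Y` is holomorphic and onto.  It lifts locally to the charts of `Y` where `h ≠ 0`, the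
set `h ∘ f = 0` is locally contained in the zero set of a holomorphic function which does not vanish
identically, and `f` is Hölder continuous in the charts. -/
structure IsHolMap {M Y : Type} [TopologicalSpace M] [TopologicalSpace Y] {n m : ℕ} {κ P : Type}
    (e : κ → OpenPartialHomeomorph M (Cn n)) (q : P → Cn m → Y) (h : Y → ℝ)
    (f : M → Y) : Prop where
  cont : Continuous f
  surj : Function.Surjective f
  lift : ∀ c, ∀ z ∈ (e c).target, h (f ((e c).symm z)) ≠ 0 → ∀ j y, nsq y < 100 →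
    q j y = f ((e c).symm z) → ∃ (U : Set (Cn n)) (L : Cn n → Cn m), IsOpen U ∧ z ∈ U ∧
      U ⊆ (e c).target ∧ L z = y ∧ IsLift q j (fun w => f ((e c).symm w)) L U
  gen : ∀ c, ∀ z ∈ (e c).target, ∃ (U : Set (Cn n)) (s : Cn n → ℂ), IsOpen U ∧ z ∈ U ∧
    U ⊆ (e c).target ∧ NF.HolC s U ∧ U ⊆ closure {w | w ∈ U ∧ s w ≠ 0} ∧
      ∀ w ∈ U, s w ≠ 0 → h (f ((e c).symm w)) ≠ 0
  holder : ∀ c, ∀ z ∈ (e c).target, ∃ C β r : ℝ, 0 < C ∧ 0 < β ∧ 0 < r ∧ ∀ v w,
    nsq (v - z) ≤ r ^ 2 → nsq (w - z) ≤ r ^ 2 → ∀ j y, nsq y ≤ 25 → q j y = f ((e c).symm v) →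
      ∃ y', nsq (y' - y) ≤ C * nsq (w - v) ^ β ∧ q j y' = f ((e c).symm w)

/-- `σ : X → Y` is a modification, an isomorphism where `h ≠ 0`.  The function `log (h ∘ σ)` has
logarithmic poles, and `i ∂ ∂bar log (h ∘ σ)` is positive up to the pull-back of a form of `Y`. -/
structure IsModif {Y X : Type} [TopologicalSpace Y] [TopologicalSpace X] {m : ℕ} {P Q : Type}
    (q : P → Cn m → Y) (h : Y → ℝ) (b : Q → OpenPartialHomeomorph X (Cn m)) (σ : X → Y) :
    Prop where
  target : ∀ a, {z | nsq z < 100} ⊆ (b a).target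
  cover : ∀ x, ∃ a, x ∈ (b a).source ∧ nsq (b a x) ≤ 1
  cont : Continuous σ
  h_cont : Continuous h
  h_nonneg : ∀ y, 0 ≤ h y
  inj : ∀ x x', σ x = σ x' → h (σ x) ≠ 0 → x = x'
  lift : ∀ a, ∀ z ∈ (b a).target, h (σ ((b a).symm z)) ≠ 0 → ∀ j y, nsq y < 100 →
    q j y = σ ((b a).symm z) → ∃ L : OpenPartialHomeomorph (Cn m) (Cn m), z ∈ L.source ∧
      L.source ⊆ (b a).target ∧ L z = y ∧ HolOn L.symm L.target ∧
      IsLift q j (fun w => σ ((b a).symm w)) L L.source
  gen : ∀ j (y : Cn m), nsq y < 100 → ∃ (U : Set (Cn m)) (s : Cn m → ℂ), IsOpen U ∧ y ∈ U ∧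
    NF.HolC s U ∧ U ⊆ closure {w | w ∈ U ∧ s w ≠ 0} ∧ ∀ w ∈ U, s w ≠ 0 → h (q j w) ≠ 0
  h_smooth : ∀ a, ContDiffOn ℝ ∞ (fun z => Real.log (h (σ ((b a).symm z))))
    {z | z ∈ (b a).target ∧ h (σ ((b a).symm z)) ≠ 0}
  h_lev : ∃ c C : ℝ, 0 < c ∧ 0 ≤ C ∧ ∀ a, ∀ z, nsq z ≤ 25 → h (σ ((b a).symm z)) ≠ 0 →
    ∀ j (U : Set (Cn m)) (L : Cn m → Cn m), IsOpen U → z ∈ U → nsq (L z) ≤ 49 →
      IsLift q j (fun w => σ ((b a).symm w)) L U → ∀ v,
        c * nsq v ≤ levz (fun z => Real.log (h (σ ((b a).symm z)))) v z +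
          C * nsq (fderiv ℝ L z v)
  h_low : ∃ (c : ℝ) (k : ℕ), 0 < c ∧ ∀ a, ∀ z, nsq z ≤ 25 →
    c * (∏ i, ‖cc z i‖) ^ k ≤ h (σ ((b a).symm z))
  jac : ∃ (c : ℝ) (k : ℕ), 0 < c ∧ ∀ a, ∀ z, nsq z ≤ 25 → h (σ ((b a).symm z)) ≠ 0 →
    ∀ j (U : Set (Cn m)) (L : Cn m → Cn m), IsOpen U → z ∈ U → nsq (L z) ≤ 49 →
      IsLift q j (fun w => σ ((b a).symm w)) L U →
        c * (∏ i, ‖cc z i‖) ^ k ≤ |(fderiv ℝ L z).det|

/-- Semistable models of `f` over the balls `nsq z ≤ 25` of the charts `b j` of `X`: a space `W`, the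
disjoint union of the parts `lab w = j`, with maps `π : W → M`, `g : W → X` and `τ : W → ℂ^m` such
that `σ ∘ g = f ∘ π` and `b j (g w)_i = τ(w)_i ^ N_i`.  The points of the fibre of `f` over `σ x` with
`h (σ x) ≠ 0` lift to `τ = t` for every `t` with `t ^ N = b j x`, and `τ = t` is connected.  In the
charts `a c` of `W`, with the polydisc of radius `10` as target, `π` is holomorphic, with values in the
chart `e (al c)`, and `τ_i` is a positive constant times the product of the coordinates `x_l` with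
`row c l = i`. -/
structure IsModel {M Y X W : Type} [TopologicalSpace M] [TopologicalSpace X] [TopologicalSpace W]
    {n m : ℕ} {κ Q ι : Type} (e : κ → OpenPartialHomeomorph M (Cn n)) (f : M → Y) (h : Y → ℝ)
    (b : Q → OpenPartialHomeomorph X (Cn m)) (σ : X → Y) (a : ι → OpenPartialHomeomorph W (Cn n))
    (al : ι → κ) (lab : W → Q) (π : W → M) (g : W → X) (τ : W → Cn m) (N : Q → Fin m → ℕ)
    (pc : ι → Q) (s : ι → Fin m → ℝ) (row : ι → Fin n → Option (Fin m)) : Prop where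
  comm : ∀ w, σ (g w) = f (π w)
  base : ∀ w, g w ∈ (b (lab w)).source ∧
    ∀ i, cc (b (lab w) (g w)) i = cc (τ w) i ^ N (lab w) i
  N_pos : ∀ j i, 0 < N j i
  target : ∀ c, (a c).target = opd 10
  lab_eq : ∀ c, ∀ w ∈ (a c).source, lab w = pc c
  s_pos : ∀ c i, 0 < s c i
  row_ne : ∀ c i, ∃ l, row c l = some i
  mono : ∀ c, ∀ w ∈ (a c).source, ∀ i, cc (τ w) i = s c i * prow (row c) i (a c w)
  mem : ∀ c, ∀ w ∈ (a c).source, π w ∈ (e (al c)).source
  holo : ∀ c, HolOn (fun x => e (al c) (π ((a c).symm x))) (opd 10)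
  cover : ∀ w, nsq (b (lab w) (g w)) ≤ 25 → ∃ c, w ∈ (a c).source ∧ a c w ∈ cpd 1
  surj : ∀ p, ∃ w, π w = p ∧ nsq (b (lab w) (g w)) ≤ 1
  onto : ∀ j x, x ∈ (b j).source → nsq (b j x) ≤ 25 → h (σ x) ≠ 0 → ∀ t : Cn m,
    (∀ i, cc t i ^ N j i = cc (b j x) i) → ∀ p, f p = σ x → ∃ w, lab w = j ∧ τ w = t ∧ π w = p
  connected : ∀ j t, (∀ i, cc t i ≠ 0) → IsPreconnected {w | lab w = j ∧ τ w = t}

/-- The limit class `[ω(0)] - 2πT c_1(M)` is the pull-back of the Kähler class of `Y`: there is a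
volume form `Ω` on `M` with `ω(0) + T i ∂ ∂bar log Ω = f^* i ∂ ∂bar (K - k₀)`, where `K j` are the
local potentials of an orbifold Kähler form of `Y` and `k₀` is a smooth function on the orbifold, such
that `K - k₀` is plurisubharmonic. -/
structure IsLimit {M Y : Type} [TopologicalSpace M] [TopologicalSpace Y] {n m : ℕ} {κ P : Type}
    (e : κ → OpenPartialHomeomorph M (Cn n)) (q : P → Cn m → Y) (h : Y → ℝ) (f : M → Y)
    (T : ℝ) (ψ : κ → ℝ × Cn n → ℝ) (Ω : κ → Cn n → ℝ) (K : P → Cn m → ℝ) (k₀ : Y → ℝ) :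
    Prop where
  volume : IsVolume e ψ Ω
  smooth : ∀ j, ContDiffOn ℝ ∞ (K j) {y | nsq y < 100}
  smooth₀ : ∀ j, ContDiffOn ℝ ∞ (fun y => k₀ (q j y)) {y | nsq y < 100}
  inv : ∀ j y y', nsq y < 100 → nsq y' < 100 → q j y = q j y' → K j y = K j y'
  psh : ∀ j y, nsq y < 100 → ∀ u, u ≠ 0 → 0 < levz (K j) u y
  psh₀ : ∀ j y, nsq y < 100 → ∀ u, 0 ≤ levz (fun y => K j y - k₀ (q j y)) u y
  eq : ∀ c j, ∀ z ∈ (e c).target, h (f ((e c).symm z)) ≠ 0 → ∀ (U : Set (Cn n))
    (L : Cn n → Cn m), IsOpen U → z ∈ U → IsLift q j (fun w => f ((e c).symm w)) L U → ∀ u,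
      lev (ψ c) u (0, z) + T * levz (fun z => Real.log (Ω c z)) u z =
        levz (fun z => K j (L z) - k₀ (q j (L z))) u z

end Pool.Agent.KRFH

end

section

/-!
# The setup of a Kähler-Ricci flow on a fibration over an orbifold
-/

open scoped ContDiff ENNReal ComplexOrder Topology
open Set MeasureTheory Filter Pool.Agent.ToricKRF Pool.Agent.ToricKRF.G Pool.Agent.KRFS
  Pool.Agent.KRFF Pool.Agent.KRFG

namespace Pool.Agent.KRFH

/-- A Kähler-Ricci flow on a fibration over an orbifold, with semistable models over a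
modification. -/
structure Mod (n m : ℕ) (M Y X W : Type) [TopologicalSpace M] [TopologicalSpace Y]
    [TopologicalSpace X] [TopologicalSpace W] (κ P Q ι : Type) (T : ℝ) extends Flow n M κ T where
  q : P → Cn m → Y
  f : M → Y
  h : Y → ℝ
  b : Q → OpenPartialHomeomorph X (Cn m)
  σ : X → Y
  a : ι → OpenPartialHomeomorph W (Cn n)
  al : ι → κ
  lab : W → Q
  π : W → M
  g : W → X
  τ : W → Cn m
  N : Q → Fin m → ℕ
  pc : ι → Q
  s : ι → Fin m → ℝ
  row : ι → Fin n → Option (Fin m)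
  K : P → Cn m → ℝ
  k₀ : Y → ℝ
  orb : IsOrbifold q
  hol : IsHolMap e q h f
  modif : IsModif q h b σ
  model : IsModel e f h b σ a al lab π g τ N pc s row
  lim : IsLimit e q h f T ψ Ω K k₀

section

variable {n m : ℕ} {M Y X W : Type} [TopologicalSpace M] [TopologicalSpace Y]
  [TopologicalSpace X] [TopologicalSpace W] {κ P Q ι : Type} {T : ℝ}
  (F : Mod n m M Y X W κ P Q ι T)

/-- the maximum of `φ(t)` on the fibre over `y` -/
noncomputable def Mod.Mx (t : ℝ) (y : Y) : ℝ := sSup (F.Phi t '' (F.f ⁻¹' {y}))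

/-- the coordinates in `X` of the point `x` of the chart `c` of `W` -/
noncomputable def Mod.yc (c : ι) (x : Cn n) : Cn m := F.b (F.pc c) (F.g ((F.a c).symm x))

/-- `φ - max_{F_y} φ ≤ 0` in the chart `c` of `W` -/
noncomputable def Mod.gc (t : ℝ) (c : ι) (x : Cn n) : ℝ :=
  F.Phi t (F.π ((F.a c).symm x)) - F.Mx t (F.f (F.π ((F.a c).symm x)))

/-- the coordinates in `M` of the point `x` of the chart `c` of `W` -/
noncomputable def Mod.piC (c : ι) (x : Cn n) : Cn n := F.e (F.al c) (F.π ((F.a c).symm x))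

open Classical in
/-- the function `H` on `X` -/
noncomputable def Mod.HX (C₁ A ε : ℝ) (x : X) : ℝ := ⨆ a : Q,
  if x ∈ (F.b a).source ∧ nsq (F.b a x) < 16 then max (hB C₁ A ε (F.b a x)) (-A - 1)
    else -A - 1

end

/-! ### plurisubharmonic functions -/

/-- the asymptotic sub-mean value property at `z` in the direction `v` -/
def Asub {m : ℕ} (u : Cn m → ℝ) (z v : Cn m) : Prop :=
  ∀ ε > 0, ∀ᶠ r in 𝓝[>] (0 : ℝ), u z ≤ cavg (fun ζ => u (line z v ζ)) r + ε * r ^ 2

/-- the radial kernels -/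
structure IsKernel {m : ℕ} (χ : Cn m → ℝ) : Prop where
  smooth : ContDiff ℝ ∞ χ
  nonneg : ∀ x, 0 ≤ χ x
  supp : ∀ x, χ x ≠ 0 → nsq x ≤ 1
  radial : ∀ x x', nsq x = nsq x' → χ x = χ x'
  integral : ∫ x, χ x = 1

/-- `∫ χ(w) u(x - ρ w) dw` -/
noncomputable def conv {m : ℕ} (χ : Cn m → ℝ) (ρ : ℝ) (u : Cn m → ℝ) (x : Cn m) : ℝ :=
  ∫ w, χ w * u (x - ρ • w)

section

variable {n m : ℕ} {M Y X W : Type} [TopologicalSpace M] [TopologicalSpace Y]
  [TopologicalSpace X] [TopologicalSpace W] {κ P Q ι : Type} {T : ℝ}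
  (F : Mod n m M Y X W κ P Q ι T)

/-- the function on the base before the regularization, in the chart `j` -/
noncomputable def Mod.uj (t : ℝ) (u : Y → ℝ) (j : P) (y : Cn m) : ℝ :=
  u (F.q j y) + t / T * (F.K j y - F.k₀ (F.q j y))

/-- the result of `L/Base.lean` -/
structure Mod.IsBase (C t : ℝ) (u : Y → ℝ) : Prop where
  cont : Continuous u
  bound : ∀ y, |u y| ≤ C
  le : ∀ y, u y ≤ F.Mx t y + C * (T - t)
  ge : ∀ y, F.h y ≠ 0 → F.Mx t y - C * (T - t) * (1 + |Real.log (F.h y)|) ≤ u y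
  psh : ∀ j, PshC (F.uj t u j) {y : Cn m | nsq y < 49}

/-- the regularization in the chart `j` -/
noncomputable def Mod.Rj (χ : Cn m → ℝ) (A η ρ t : ℝ) (u : Y → ℝ) (j : P) (y : Cn m) : ℝ :=
  (1 - A * η) * (conv χ ρ (F.uj t u j) y - t / T * F.K j y) - η * nsq y +
    t / T * F.k₀ (F.q j y)

/-- the regularization -/
noncomputable def Mod.R (χ : Cn m → ℝ) (A η ρ t : ℝ) (u : Y → ℝ) (y : Y) : ℝ :=
  sSup {r | ∃ j y', nsq y' < 16 ∧ F.q j y' = y ∧ r = F.Rj χ A η ρ t u j y'}

end

end Pool.Agent.KRFH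

end

section

/-!
# The asymptotic sub-mean value property

A continuous function of one complex variable with the asymptotic sub-mean value property at all
points but finitely many has the sub-mean value property. Functions touched from below by smooth
functions with nonnegative Levi form, and continuous psh functions, have the asymptotic
sub-mean value property.
-/

open scoped ContDiff ENNReal ComplexOrder Topology Laplacian
open Set MeasureTheory Filter Pool.Agent.ToricKRF Pool.Agent.ToricKRF.G Pool.Agent.KRFS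
  Pool.Agent.KRFF Pool.Agent.KRFG InnerProductSpace

namespace Pool.Agent.KRFH

/-- the comparison with a harmonic function -/
theorem compare_gen {u P : ℂ → ℝ} {r ε : ℝ}
    (hu : ContinuousOn u (Metric.closedBall 0 r)) {S : Set ℂ} (hS : S.Finite)
    (h : ∀ z ∈ Metric.ball (0 : ℂ) r, z ∉ S → ∀ H : ℂ → ℝ, HarmonicAt H z → ∀ η > 0,
      ¬ IsLocalMax (fun w => u w - H w + η * Complex.normSq w) z)
    (hP : ∀ z, HarmonicAt P z) (hb : ∀ z ∈ Metric.sphere (0 : ℂ) r, u z ≤ P z + ε)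
    {z₁ : ℂ} (hz₁ : z₁ ∈ Metric.ball (0 : ℂ) r) (hz₁S : z₁ ∉ S) : u z₁ ≤ P z₁ + ε := by
  classical
  by_contra hcon
  push Not at hcon
  have hr : 0 < r := by
    have := (norm_nonneg z₁).trans_lt (by simpa using hz₁)
    exact this
  have hPc : Continuous P := continuous_iff_continuousAt.mpr fun z =>
    (hP z).1.continuousAt
  obtain ⟨B, hB⟩ := hS.isBounded.exists_norm_le
  set R : ℝ := r + |B| + 1 with hR
  have hRpos : 0 < R := by positivity
  have hle1 : ∀ z ∈ Metric.closedBall (0 : ℂ) r, ∀ s ∈ S, ‖z - s‖ / R ≤ 1 := by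
    intro z hz s hs
    rw [div_le_one hRpos]
    have h1 : ‖z‖ ≤ r := by simpa using hz
    have h2 := (hB s hs).trans (le_abs_self B)
    linarith [norm_sub_le z s]
  set F : Finset ℂ := hS.toFinset with hF
  set L : ℂ → ℝ := fun z => ∑ s ∈ F, Real.log (‖z - s‖ / R) with hL
  have hterm : ∀ z ∈ Metric.closedBall (0 : ℂ) r, ∀ s ∈ F, Real.log (‖z - s‖ / R) ≤ 0 := by
    intro z hz s hs
    exact Real.log_nonpos (by positivity) (hle1 z hz s (by simpa [hF] using hs))
  have hLle : ∀ z ∈ Metric.closedBall (0 : ℂ) r, ∀ s ∈ F, L z ≤ Real.log (‖z - s‖ / R) := by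
    intro z hz s hs
    rw [hL]
    simp only
    rw [← Finset.add_sum_erase _ _ hs]
    have : ∑ x ∈ F.erase s, Real.log (‖z - x‖ / R) ≤ 0 :=
      Finset.sum_nonpos fun x hx => hterm z hz x (Finset.mem_of_mem_erase hx)
    linarith
  have hL0 : ∀ z ∈ Metric.closedBall (0 : ℂ) r, L z ≤ 0 := fun z hz =>
    Finset.sum_nonpos fun x hx => hterm z hz x hx
  have hLh : ∀ z, z ∉ S → HarmonicAt L z := by
    intro z hz
    have h1 : ∀ s ∈ S, HarmonicAt (fun z : ℂ => Real.log (‖z - s‖ / R)) z := by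
      intro s hs
      have hzs : z - s ≠ 0 := fun h => hz (by rw [sub_eq_zero.mp h]; exact hs)
      have h2 : AnalyticAt ℂ (fun z : ℂ => z - s) z := analyticAt_id.sub analyticAt_const
      have h3 := (h2.harmonicAt_log_norm hzs).sub (harmonicAt_const (x := z) (Real.log R))
      refine (harmonicAt_congr_nhds ?_).mpr h3
      have h4 : ∀ᶠ w in 𝓝 z, w - s ≠ 0 := by
        have : ContinuousAt (fun w : ℂ => w - s) z := by fun_prop
        exact this.eventually_ne hzs
      filter_upwards [h4] with w hw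
      simp only [Pi.sub_apply]
      rw [Real.log_div (norm_ne_zero_iff.mpr hw) hRpos.ne']
    have h5 : ∀ G : Finset ℂ, (∀ s ∈ G, s ∈ S) →
        HarmonicAt (fun z => ∑ s ∈ G, Real.log (‖z - s‖ / R)) z := by
      intro G
      induction G using Finset.induction_on with
      | empty => intro _; simp
      | insert a G ha ih =>
        intro hG
        have h6 := (h1 a (hG a (by simp))).add (ih fun s hs => hG s (by simp [hs]))
        have h7 : (fun z => ∑ s ∈ insert a G, Real.log (‖z - s‖ / R)) =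
            (fun z : ℂ => Real.log (‖z - a‖ / R)) + fun z => ∑ s ∈ G, Real.log (‖z - s‖ / R) := by
          ext w
          simp [Finset.sum_insert ha]
        rw [h7]
        exact h6
    exact h5 F fun s hs => by simpa [hF] using hs
  set ε' : ℝ := u z₁ - (P z₁ + ε) with hε'
  have hε'pos : 0 < ε' := by rw [hε']; linarith
  set η : ℝ := ε' / (2 * (r ^ 2 - L z₁ + 1)) with hη
  have hz₁c : z₁ ∈ Metric.closedBall (0 : ℂ) r := Metric.ball_subset_closedBall hz₁
  have hden : 0 < r ^ 2 - L z₁ + 1 := by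
    have := hL0 z₁ hz₁c
    nlinarith [sq_nonneg r]
  have hηpos : 0 < η := by positivity
  have hηle : η * (r ^ 2 - L z₁) < ε' := by
    rw [hη]
    rw [div_mul_eq_mul_div, div_lt_iff₀ (by positivity)]
    nlinarith
  set W : ℂ → ℝ := fun z => u z - P z + η * Complex.normSq z + η * L z with hW
  have hW1 : ε + η * r ^ 2 < W z₁ := by
    have h1 : 0 ≤ η * Complex.normSq z₁ := mul_nonneg hηpos.le (Complex.normSq_nonneg _)
    simp only [hW]
    nlinarith
  -- an upper bound for the rest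
  obtain ⟨M, hM⟩ : ∃ M, ∀ z ∈ Metric.closedBall (0 : ℂ) r,
      u z - P z + η * Complex.normSq z ≤ M := by
    have hc : ContinuousOn (fun z => u z - P z + η * Complex.normSq z)
        (Metric.closedBall (0 : ℂ) r) :=
      (hu.sub hPc.continuousOn).add (continuous_const.mul Complex.continuous_normSq).continuousOn
    obtain ⟨z₀, -, hz₀⟩ := (isCompact_closedBall (0 : ℂ) r).exists_isMaxOn
      ⟨0, by simp [hr.le]⟩ hc
    exact ⟨_, fun z hz => hz₀ hz⟩
  set δ : ℝ := R * Real.exp ((W z₁ - M) / η - 1) with hδ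
  have hδpos : 0 < δ := by positivity
  have hnear : ∀ z ∈ Metric.closedBall (0 : ℂ) r, z ∉ S → ∀ s ∈ S, ‖z - s‖ ≤ δ → W z < W z₁ := by
    intro z hz hzS s hs hzs
    have hpos : 0 < ‖z - s‖ := norm_pos_iff.mpr fun h => hzS (by
      rw [sub_eq_zero.mp h]; exact hs)
    have h1 : L z ≤ Real.log (‖z - s‖ / R) := hLle z hz s (by simpa [hF] using hs)
    have h2 : Real.log (‖z - s‖ / R) ≤ (W z₁ - M) / η - 1 := by
      rw [← Real.log_exp ((W z₁ - M) / η - 1)]
      refine Real.log_le_log (by positivity) ?_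
      rw [div_le_iff₀ hRpos]
      rw [hδ] at hzs
      linarith
    have h3 : η * L z ≤ η * ((W z₁ - M) / η - 1) :=
      mul_le_mul_of_nonneg_left (h1.trans h2) hηpos.le
    have h4 : η * ((W z₁ - M) / η - 1) = W z₁ - M - η := by
      field_simp
    have h5 := hM z hz
    have h6 : W z = (u z - P z + η * Complex.normSq z) + η * L z := rfl
    rw [h6]
    linarith
  set K : Set ℂ := {z | z ∈ Metric.closedBall (0 : ℂ) r ∧ ∀ s ∈ S, δ ≤ ‖z - s‖} with hK
  have hKc : IsCompact K := by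
    refine (isCompact_closedBall (0 : ℂ) r).of_isClosed_subset ?_ fun z hz => hz.1
    have : K = Metric.closedBall (0 : ℂ) r ∩ ⋂ s ∈ S, {z | δ ≤ ‖z - s‖} := by
      ext z; simp [hK]
    rw [this]
    refine Metric.isClosed_closedBall.inter (isClosed_biInter fun s _ => ?_)
    exact isClosed_le continuous_const (by fun_prop)
  have hKS : ∀ z ∈ K, z ∉ S := by
    intro z hz hzS
    have := hz.2 z hzS
    simp at this
    linarith
  have hz₁K : z₁ ∈ K := by
    refine ⟨hz₁c, fun s hs => ?_⟩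
    by_contra hlt
    push Not at hlt
    exact lt_irrefl _ (hnear z₁ hz₁c hz₁S s hs hlt.le)
  have hWc : ContinuousOn W K := by
    have h1 : ContinuousOn L K := fun z hz => ((hLh z (hKS z hz)).1.continuousAt).continuousWithinAt
    exact (((hu.mono fun z hz => hz.1).sub hPc.continuousOn).add
      (continuous_const.mul Complex.continuous_normSq).continuousOn).add
      (continuousOn_const.mul h1)
  obtain ⟨z₂, hz₂K, hz₂⟩ := hKc.exists_isMaxOn ⟨z₁, hz₁K⟩ hWc
  have hge : W z₁ ≤ W z₂ := hz₂ hz₁K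
  have hz₂S := hKS z₂ hz₂K
  have hmaxall : ∀ z ∈ Metric.closedBall (0 : ℂ) r, z ∉ S → W z ≤ W z₂ := by
    intro z hz hzS
    by_cases hzK : z ∈ K
    · exact hz₂ hzK
    · have : ∃ s ∈ S, ‖z - s‖ < δ := by
        by_contra hno
        push Not at hno
        exact hzK ⟨hz, hno⟩
      obtain ⟨s, hs, hlt⟩ := this
      exact ((hnear z hz hzS s hs hlt.le).le).trans hge
  have hz₂b : z₂ ∈ Metric.ball (0 : ℂ) r := by
    rw [Metric.mem_ball, dist_zero_right]
    have h1 : ‖z₂‖ ≤ r := by simpa using hz₂K.1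
    refine lt_of_le_of_ne h1 fun h2 => ?_
    have h3 := hb z₂ (by simpa using h2)
    have h4 := hL0 z₂ hz₂K.1
    have h5 : Complex.normSq z₂ = r ^ 2 := by rw [Complex.normSq_eq_norm_sq, h2]
    have h6 : W z₂ ≤ ε + η * r ^ 2 := by
      simp only [hW]
      rw [h5]
      nlinarith
    linarith
  refine h z₂ hz₂b hz₂S (P - η • L) ((hP z₂).sub (hLh z₂ hz₂S).const_smul) η hηpos ?_
  have h1 : ∀ᶠ z in 𝓝 z₂, z ∈ Metric.ball (0 : ℂ) r := Metric.isOpen_ball.mem_nhds hz₂b
  have h2 : ∀ᶠ z in 𝓝 z₂, z ∉ S := hS.isClosed.isOpen_compl.mem_nhds hz₂S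
  filter_upwards [h1, h2] with z hz1 hz2
  have h3 := hmaxall z (Metric.ball_subset_closedBall hz1) hz2
  simp only [hW] at h3
  simp only [Pi.sub_apply, Pi.smul_apply, smul_eq_mul]
  linarith

/-- the asymptotic sub-mean value property excludes local maxima -/
theorem not_max_of_asub {u : ℂ → ℝ} {z : ℂ} {U : Set ℂ} (hU : IsOpen U) (hz : z ∈ U)
    (hu : ContinuousOn u U)
    (h : ∀ ε > 0, ∀ᶠ r in 𝓝[>] (0 : ℝ), u z ≤ cavg (fun ζ => u (z + ζ)) r + ε * r ^ 2)
    {H : ℂ → ℝ} (hH : HarmonicAt H z) {η : ℝ} (hη : 0 < η) :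
    ¬ IsLocalMax (fun w => u w - H w + η * Complex.normSq w) z := by
  intro hm
  have hpi := Real.pi_pos
  set L : ℂ → ℝ := fun w => ((2 * η : ℂ) * ((starRingEnd ℂ) z * (w - z))).re with hL
  have hLh : ∀ w, HarmonicAt L w := by
    intro w
    have h1 : Differentiable ℂ (fun w : ℂ => (2 * η : ℂ) * ((starRingEnd ℂ) z * (w - z))) := by
      fun_prop
    exact (h1.analyticAt w).harmonicAt_re
  have hKh : HarmonicAt (H - L) z := hH.sub (hLh z)
  obtain ⟨δ, hδ, hδs⟩ := Metric.nhds_basis_closedBall.eventually_iff.mp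
    (hKh.eventually.and (hm.and (hU.mem_nhds hz)))
  obtain ⟨r, hr1, hr0, hr2⟩ := ((h (η / 2) (by positivity)).and (Ioc_mem_nhdsGT hδ)).exists
  have hin : ∀ w, ‖w‖ ≤ r → z + w ∈ Metric.closedBall z δ := by
    intro w hw
    simpa using hw.trans hr2
  have hmean : cavg (fun ζ => (H - L) (z + ζ)) r = H z := by
    have h4 := InnerProductSpace.HarmonicOnNhd.circleAverage_eq (f := H - L) (c := z) (R := r)
      fun w hw => (hδs (by
        rw [abs_of_pos hr0] at hw
        exact Metric.closedBall_subset_closedBall hr2 hw)).1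
    rw [Real.circleAverage_def] at h4
    rw [cavg]
    simp only [circleMap, smul_eq_mul] at h4
    rw [h4]
    simp [hL]
  have hmem : ∀ θ : ℝ, z + (r : ℂ) * Complex.exp (θ * Complex.I) ∈ Metric.closedBall z δ := by
    intro θ
    apply hin
    simp [Complex.norm_exp_ofReal_mul_I, abs_of_pos hr0]
  have hc0 : Continuous fun θ : ℝ => z + (r : ℂ) * Complex.exp (θ * Complex.I) := by fun_prop
  have hc1 : Continuous fun θ : ℝ => (H - L) (z + (r : ℂ) * Complex.exp (θ * Complex.I)) := by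
    have h5 : ContinuousOn (H - L) (Metric.closedBall z δ) := fun w hw =>
      ((hδs hw).1.1.continuousAt).continuousWithinAt
    exact h5.comp_continuous hc0 hmem
  have hc2 : Continuous fun θ : ℝ => u (z + (r : ℂ) * Complex.exp (θ * Complex.I)) :=
    hu.comp_continuous hc0 fun θ => (hδs (hmem θ)).2.2
  have hpt : ∀ θ : ℝ, u (z + (r : ℂ) * Complex.exp (θ * Complex.I)) ≤
      (H - L) (z + (r : ℂ) * Complex.exp (θ * Complex.I)) + (u z - H z - η * r ^ 2) := by
    intro θ
    have h6 := (hδs (hmem θ)).2.1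
    set w : ℂ := (r : ℂ) * Complex.exp (θ * Complex.I) with hw
    have h7 : Complex.normSq w = r ^ 2 := by
      rw [Complex.normSq_eq_norm_sq, hw]
      simp [Complex.norm_exp_ofReal_mul_I]
    have h8 : L (z + w) = 2 * η * (z.re * w.re + z.im * w.im) := by
      simp only [hL, add_sub_cancel_left]
      simp
    have h9 : Complex.normSq (z + w) = Complex.normSq z + 2 * (z.re * w.re + z.im * w.im) +
        Complex.normSq w := by
      simp only [Complex.normSq_apply, Complex.add_re, Complex.add_im]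
      ring
    simp only at h6
    rw [h9, h7] at h6
    rw [Pi.sub_apply, h8]
    linarith
  have h5 : ∫ θ in (0 : ℝ)..2 * Real.pi, u (z + (r : ℂ) * Complex.exp (θ * Complex.I)) ≤
      ∫ θ in (0 : ℝ)..2 * Real.pi, ((H - L) (z + (r : ℂ) * Complex.exp (θ * Complex.I)) +
        (u z - H z - η * r ^ 2)) :=
    intervalIntegral.integral_mono (by positivity) (hc2.intervalIntegrable _ _)
      ((hc1.add continuous_const).intervalIntegrable _ _) hpt
  rw [intervalIntegral.integral_add (hc1.intervalIntegrable _ _) (by simp)] at h5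
  simp only [intervalIntegral.integral_const, sub_zero, smul_eq_mul] at h5
  have hpi2 : (2 * Real.pi)⁻¹ * (2 * Real.pi) = 1 := inv_mul_cancel₀ (by positivity)
  have h6 : cavg (fun ζ => u (z + ζ)) r ≤ cavg (fun ζ => (H - L) (z + ζ)) r +
      (u z - H z - η * r ^ 2) := by
    unfold cavg
    calc (2 * Real.pi)⁻¹ * ∫ θ in (0 : ℝ)..2 * Real.pi,
          u (z + (r : ℂ) * Complex.exp (θ * Complex.I))
        ≤ (2 * Real.pi)⁻¹ * ((∫ θ in (0 : ℝ)..2 * Real.pi,
          (H - L) (z + (r : ℂ) * Complex.exp (θ * Complex.I))) +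
            2 * Real.pi * (u z - H z - η * r ^ 2)) :=
          mul_le_mul_of_nonneg_left h5 (by positivity)
      _ = _ := by
          rw [mul_add, ← mul_assoc _ (2 * Real.pi), hpi2, one_mul]
  rw [hmean] at h6
  nlinarith [pow_pos hr0 2]

theorem visc_asub {u : ℂ → ℝ} (hu : ContinuousOn u (Metric.closedBall 0 1)) {S : Set ℂ}
    (hS : S.Finite) (h : ∀ z ∈ Metric.ball (0 : ℂ) 1, z ∉ S → ∀ ε > 0,
      ∀ᶠ r in 𝓝[>] (0 : ℝ), u z ≤ cavg (fun ζ => u (z + ζ)) r + ε * r ^ 2) : u 0 ≤ cavg u 1 := by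
  refine le_of_forall_pos_le_add fun ε hε => ?_
  obtain ⟨P, hP, hPu⟩ := ViscAux.approx one_pos (hu.mono Metric.sphere_subset_closedBall)
    (half_pos hε)
  have hPc : Continuous P := continuous_iff_continuousAt.mpr fun z => (hP z).1.continuousAt
  have h1 : ∀ z ∈ Metric.ball (0 : ℂ) 1, z ∉ S → u z ≤ P z + ε / 2 := fun z hz hzS =>
    compare_gen hu hS (fun w hw hwS H hH η hη => not_max_of_asub Metric.isOpen_ball hw
      (hu.mono Metric.ball_subset_closedBall) (h w hw hwS) hH hη) hP (fun w hw => by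
      have := abs_le.mp (hPu w hw)
      linarith [this.1]) hz hzS
  have h2 : u 0 ≤ P 0 + ε / 2 := by
    have h3 : Tendsto u (𝓝[≠] 0) (𝓝 (u 0)) := by
      have : ContinuousAt u 0 := hu.continuousAt (Metric.closedBall_mem_nhds _ one_pos)
      exact this.tendsto.mono_left nhdsWithin_le_nhds
    have h4 : Tendsto (fun z => P z + ε / 2) (𝓝[≠] 0) (𝓝 (P 0 + ε / 2)) :=
      ((hPc.tendsto 0).mono_left nhdsWithin_le_nhds).add_const _
    refine le_of_tendsto_of_tendsto h3 h4 ?_
    have h5 : ∀ᶠ z in 𝓝 (0 : ℂ), z ∈ Metric.ball (0 : ℂ) 1 := Metric.ball_mem_nhds _ one_pos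
    have h6 : ∀ᶠ z in 𝓝 (0 : ℂ), z ∉ S \ {0} :=
      (hS.subset sdiff_subset).isClosed.isOpen_compl.mem_nhds (by simp)
    filter_upwards [nhdsWithin_le_nhds h5, nhdsWithin_le_nhds h6, self_mem_nhdsWithin]
      with z h7 h8 h9
    exact h1 z h7 fun h10 => h8 ⟨h10, h9⟩
  have h3 : P 0 = cavg P 1 := by
    have h4 := InnerProductSpace.HarmonicOnNhd.circleAverage_eq (f := P) (c := 0) (R := 1) fun z _ => hP z
    rw [← h4, Real.circleAverage_def, cavg]
    simp [circleMap]
  have h4 : cavg P 1 ≤ cavg u 1 + ε / 2 := by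
    have hmem : ∀ θ : ℝ, ((1 : ℝ) : ℂ) * Complex.exp (θ * Complex.I) ∈ Metric.sphere (0 : ℂ) 1 := by
      intro θ
      simp [Complex.norm_exp_ofReal_mul_I]
    have hc0 : Continuous fun θ : ℝ => ((1 : ℝ) : ℂ) * Complex.exp (θ * Complex.I) := by fun_prop
    have hc1 : Continuous fun θ : ℝ => P (((1 : ℝ) : ℂ) * Complex.exp (θ * Complex.I)) :=
      hPc.comp hc0
    have hc2 : Continuous fun θ : ℝ => u (((1 : ℝ) : ℂ) * Complex.exp (θ * Complex.I)) :=
      (hu.mono Metric.sphere_subset_closedBall).comp_continuous hc0 hmem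
    have h5 : ∫ θ in (0 : ℝ)..2 * Real.pi, P (((1 : ℝ) : ℂ) * Complex.exp (θ * Complex.I)) ≤
        ∫ θ in (0 : ℝ)..2 * Real.pi, (u (((1 : ℝ) : ℂ) * Complex.exp (θ * Complex.I)) + ε / 2) := by
      refine intervalIntegral.integral_mono (by positivity) (hc1.intervalIntegrable _ _)
        ((hc2.add continuous_const).intervalIntegrable _ _) fun θ => ?_
      have := abs_le.mp (hPu _ (hmem θ))
      simp only
      linarith [this.2]
    rw [intervalIntegral.integral_add (hc2.intervalIntegrable _ _) (by simp)] at h5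
    simp only [intervalIntegral.integral_const, sub_zero, smul_eq_mul] at h5
    have hpi : (2 * Real.pi)⁻¹ * (2 * Real.pi) = 1 := inv_mul_cancel₀ (by positivity)
    unfold cavg
    calc (2 * Real.pi)⁻¹ * ∫ θ in (0 : ℝ)..2 * Real.pi, P (((1 : ℝ) : ℂ) * Complex.exp (θ * Complex.I))
        ≤ (2 * Real.pi)⁻¹ * ((∫ θ in (0 : ℝ)..2 * Real.pi,
          u (((1 : ℝ) : ℂ) * Complex.exp (θ * Complex.I))) + 2 * Real.pi * (ε / 2)) :=
          mul_le_mul_of_nonneg_left h5 (by positivity)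
      _ = _ := by
          rw [mul_add, ← mul_assoc, hpi, one_mul]
  linarith

/-- the second order expansion at a point where the function is of class `C^2` -/
theorem taylor_two_at {E : Type*} [NormedAddCommGroup E] [NormedSpace ℝ E] {h : E → ℝ}
    (hh : ContDiffAt ℝ 2 h 0) {ε : ℝ} (hε : 0 < ε) : ∃ r > 0, ∀ x : E, ‖x‖ ≤ r →
      ‖h x - h 0 - fderiv ℝ h 0 x - 1 / 2 * fderiv ℝ (fderiv ℝ h) 0 x x‖ ≤ ε * ‖x‖ ^ 2 := by
  have hd : ∀ᶠ y in 𝓝 (0 : E), DifferentiableAt ℝ h y := by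
    have k := hh.eventually (by norm_num)
    filter_upwards [k] with y hy
    exact hy.differentiableAt (by norm_num)
  have hd1 : ContDiffAt ℝ 1 (fderiv ℝ h) 0 := hh.fderiv_right (by norm_num)
  have hd2 : DifferentiableAt ℝ (fderiv ℝ h) 0 := hd1.differentiableAt (by norm_num)
  have hs : IsSymmSndFDerivAt ℝ h 0 := by
    apply hh.isSymmSndFDerivAt
    rw [minSmoothness_of_isRCLikeNormedField]
  have h1 := hd2.hasFDerivAt.isLittleO
  rw [Asymptotics.isLittleO_iff] at h1
  obtain ⟨r, hr, hrs⟩ := Metric.nhds_basis_closedBall.eventually_iff.mp ((h1 hε).and hd)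
  refine ⟨r, hr, fun x hx => ?_⟩
  set B := fderiv ℝ (fderiv ℝ h) 0 with hB
  have hsub : ∀ y ∈ Metric.closedBall (0 : E) ‖x‖, y ∈ Metric.closedBall (0 : E) r := fun y hy =>
    Metric.closedBall_subset_closedBall hx hy
  have hg : ∀ y ∈ Metric.closedBall (0 : E) ‖x‖,
      HasFDerivAt (fun y => h y - h 0 - fderiv ℝ h 0 y - 1 / 2 * B y y)
      (fderiv ℝ h y - fderiv ℝ h 0 - B y) y := by
    intro y hy
    have k1 := (((hrs (hsub y hy)).2.hasFDerivAt).sub_const (h 0)).sub (fderiv ℝ h 0).hasFDerivAt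
    have k2 : HasFDerivAt (fun y => B y y) (B y + B.flip y) y := by
      have k3 := B.hasFDerivAt (x := y)
      have k4 := k3.clm_apply (hasFDerivAt_id y)
      refine k4.congr_fderiv ?_
      ext w
      simp
    refine (k1.sub (k2.const_mul (1 / 2))).congr_fderiv ?_
    ext w
    have k5 : B w y = B y w := hs w y
    simp only [sub_apply, smul_apply, add_apply, ContinuousLinearMap.flip_apply, smul_eq_mul, k5]
    ring
  have h2 : ∀ y ∈ Metric.closedBall (0 : E) ‖x‖,
      ‖fderiv ℝ h y - fderiv ℝ h 0 - B y‖ ≤ ε * ‖x‖ := by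
    intro y hy
    have := (hrs (hsub y hy)).1
    rw [mem_closedBall_zero_iff] at hy
    rw [sub_zero] at this
    exact this.trans (mul_le_mul_of_nonneg_left hy hε.le)
  have h3 := (convex_closedBall (0 : E) ‖x‖).norm_image_sub_le_of_norm_hasFDerivWithin_le
    (f := fun y => h y - h 0 - fderiv ℝ h 0 y - 1 / 2 * B y y)
    (fun y hy => (hg y hy).hasFDerivWithinAt) h2 (x := 0) (y := x)
    (Metric.mem_closedBall_self (norm_nonneg _)) (by simp)
  simp only [sub_self, map_zero, sub_zero, mul_zero] at h3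
  calc _ ≤ ε * ‖x‖ * ‖x‖ := h3
    _ = _ := by ring

/-- the averages of a function above one with nonnegative Laplacian -/
theorem cavg_ge {q : ℂ → ℝ} (hq : ContDiffAt ℝ 2 q 0) (hl : 0 ≤ lapC q 0) {ε : ℝ} (hε : 0 < ε) :
    ∃ r₀ > 0, ∀ s : ℝ, 0 < s → s ≤ r₀ → ∀ f : ℂ → ℝ,
      (Continuous fun θ : ℝ => f (s * Complex.exp (θ * Complex.I))) →
      (∀ θ : ℝ, q (s * Complex.exp (θ * Complex.I)) ≤ f (s * Complex.exp (θ * Complex.I))) →
      q 0 ≤ cavg f s + ε * s ^ 2 := by
  obtain ⟨r', hr', ht⟩ := taylor_two_at hq hε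
  refine ⟨r', hr', fun s hs0 hsr f hf hqf => ?_⟩
  have hpi := Real.pi_pos
  set B := fderiv ℝ (fderiv ℝ q) 0 with hB
  have hsym : B Complex.I 1 = B 1 Complex.I := by
    have k : IsSymmSndFDerivAt ℝ q 0 := by
      apply hq.isSymmSndFDerivAt
      rw [minSmoothness_of_isRCLikeNormedField]
    exact k Complex.I 1
  have hlap : lapC q 0 = B 1 1 + B Complex.I Complex.I := by
    have hd2 : DifferentiableAt ℝ (fderiv ℝ q) 0 :=
      (hq.fderiv_right (m := 1) (by norm_num)).differentiableAt (by norm_num)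
    have k : ∀ w : ℂ, D w (D w q) 0 = B w w := by
      intro w
      unfold D
      rw [fderiv_clm_apply hd2 (differentiableAt_const w)]
      simp [hB]
    rw [lapC, k, k]
  have hexp : ∀ θ : ℝ, (s : ℂ) * Complex.exp (θ * Complex.I) =
      (s * Real.cos θ) • (1 : ℂ) + (s * Real.sin θ) • Complex.I := by
    intro θ
    rw [Complex.exp_mul_I, Complex.real_smul, Complex.real_smul]
    push_cast
    ring
  have hpt : ∀ θ : ℝ, q 0 +
      s * fderiv ℝ q 0 1 * Real.cos θ + s * fderiv ℝ q 0 Complex.I * Real.sin θ +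
      s ^ 2 / 2 * (B 1 1 * Real.cos θ ^ 2 + 2 * B 1 Complex.I * (Real.sin θ * Real.cos θ) +
        B Complex.I Complex.I * Real.sin θ ^ 2) - ε * s ^ 2 ≤
      f (s * Complex.exp (θ * Complex.I)) := by
    intro θ
    refine le_trans ?_ (hqf θ)
    have hn : ‖(s : ℂ) * Complex.exp (θ * Complex.I)‖ = s := by
      rw [norm_mul, Complex.norm_exp_ofReal_mul_I, mul_one, Complex.norm_real,
        Real.norm_of_nonneg hs0.le]
    have k := ht (s * Complex.exp (θ * Complex.I)) (by rw [hn]; exact hsr)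
    rw [hn] at k
    have k1 := (abs_le.1 (Real.norm_eq_abs _ ▸ k)).1
    rw [hexp] at k1 ⊢
    simp only [map_add, map_smul, add_apply, smul_apply, smul_eq_mul, hsym] at k1
    nlinarith [k1]
  have hint : 2 * Real.pi * q 0 + s ^ 2 / 2 * (Real.pi * (B 1 1 + B Complex.I Complex.I)) -
        2 * Real.pi * (ε * s ^ 2) ≤
      ∫ θ in (0 : ℝ)..2 * Real.pi, f (s * Complex.exp (θ * Complex.I)) := by
    refine (le_of_eq ?_).trans (intervalIntegral.integral_mono_on (by positivity)
      ?_ (hf.intervalIntegrable _ _) (fun θ _ => hpt θ))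
    swap
    · exact Continuous.intervalIntegrable (by fun_prop) _ _
    have c1 : IntervalIntegrable (fun θ : ℝ => q 0) volume 0 (2 * Real.pi) :=
      Continuous.intervalIntegrable (by fun_prop) _ _
    have c2 : IntervalIntegrable (fun θ : ℝ => s * fderiv ℝ q 0 1 * Real.cos θ) volume 0
      (2 * Real.pi) := Continuous.intervalIntegrable (by fun_prop) _ _
    have c3 : IntervalIntegrable (fun θ : ℝ => s * fderiv ℝ q 0 Complex.I * Real.sin θ) volume 0
      (2 * Real.pi) := Continuous.intervalIntegrable (by fun_prop) _ _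
    have c4 : IntervalIntegrable (fun θ : ℝ => s ^ 2 / 2 * (B 1 1 * Real.cos θ ^ 2 +
        2 * B 1 Complex.I * (Real.sin θ * Real.cos θ) + B Complex.I Complex.I * Real.sin θ ^ 2))
        volume 0 (2 * Real.pi) := Continuous.intervalIntegrable (by fun_prop) _ _
    have c5 : IntervalIntegrable (fun θ : ℝ => ε * s ^ 2) volume 0 (2 * Real.pi) :=
      Continuous.intervalIntegrable (by fun_prop) _ _
    have d1 : IntervalIntegrable (fun θ : ℝ => B 1 1 * Real.cos θ ^ 2) volume 0 (2 * Real.pi) :=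
      Continuous.intervalIntegrable (by fun_prop) _ _
    have d2 : IntervalIntegrable (fun θ : ℝ => 2 * B 1 Complex.I * (Real.sin θ * Real.cos θ))
      volume 0 (2 * Real.pi) := Continuous.intervalIntegrable (by fun_prop) _ _
    have d3 : IntervalIntegrable (fun θ : ℝ => B Complex.I Complex.I * Real.sin θ ^ 2)
      volume 0 (2 * Real.pi) := Continuous.intervalIntegrable (by fun_prop) _ _
    rw [intervalIntegral.integral_sub (((c1.add c2).add c3).add c4) c5,
      intervalIntegral.integral_add ((c1.add c2).add c3) c4,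
      intervalIntegral.integral_add (c1.add c2) c3, intervalIntegral.integral_add c1 c2,
      intervalIntegral.integral_const_mul, intervalIntegral.integral_const_mul,
      intervalIntegral.integral_const_mul, intervalIntegral.integral_add (d1.add d2) d3,
      intervalIntegral.integral_add d1 d2, intervalIntegral.integral_const_mul,
      intervalIntegral.integral_const_mul, intervalIntegral.integral_const_mul,
      intervalIntegral.integral_const, intervalIntegral.integral_const, integral_cos, integral_sin,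
      integral_cos_sq, integral_sin_sq, integral_sin_mul_cos₁]
    simp only [Real.sin_two_pi, Real.cos_two_pi, Real.sin_zero, Real.cos_zero, smul_eq_mul]
    ring
  rw [← hlap] at hint
  have h1 : 0 ≤ s ^ 2 / 2 * (Real.pi * lapC q 0) := by positivity
  have h2 : q 0 - ε * s ^ 2 ≤ cavg f s := by
    rw [cavg, inv_mul_eq_div, le_div_iff₀ (by positivity)]
    nlinarith
  linarith

theorem asub_of_touch {m : ℕ} {u : Cn m → ℝ} {V : Set (Cn m)} (hV : IsOpen V)
    (hu : ContinuousOn u V) {z v : Cn m} (hz : z ∈ V) {q : ℂ → ℝ} (hq : ContDiffAt ℝ 2 q 0)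
    (h0 : q 0 = u z) (hle : ∀ᶠ ζ in 𝓝 (0 : ℂ), q ζ ≤ u (line z v ζ)) (hl : 0 ≤ lapC q 0) :
    Asub u z v := by
  intro ε hε
  obtain ⟨r₀, hr₀, hr⟩ := cavg_ge hq hl hε
  have hlc : Continuous (line z v) := (contDiff_line z v).continuous
  have hV' : ∀ᶠ ζ in 𝓝 (0 : ℂ), line z v ζ ∈ V := by
    refine hlc.continuousAt.eventually_mem (hV.mem_nhds ?_)
    rw [line_zero]
    exact hz
  obtain ⟨δ, hδ, hδs⟩ := Metric.nhds_basis_closedBall.eventually_iff.mp (hle.and hV')
  filter_upwards [Ioc_mem_nhdsGT (lt_min hr₀ hδ)] with s hs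
  have hmem : ∀ θ : ℝ, (s : ℂ) * Complex.exp (θ * Complex.I) ∈ Metric.closedBall (0 : ℂ) δ := by
    intro θ
    have : s ≤ δ := hs.2.trans (min_le_right _ _)
    simp [Complex.norm_exp_ofReal_mul_I, abs_of_pos hs.1, this]
  rw [← h0]
  refine hr s hs.1 (hs.2.trans (min_le_left _ _)) _ ?_ fun θ => (hδs (hmem θ)).1
  have hc0 : Continuous fun θ : ℝ => line z v ((s : ℂ) * Complex.exp (θ * Complex.I)) :=
    hlc.comp (by fun_prop)
  exact hu.comp_continuous hc0 fun θ => (hδs (hmem θ)).2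

theorem asub_of_smooth {m : ℕ} {u G : Cn m → ℝ} {S : Set (Cn m)} (hS : IsOpen S)
    (hu : ContinuousOn u S) (hG : ContDiffOn ℝ ∞ G S) {z : Cn m} (hz : z ∈ S)
    (h0 : G z = u z) (hle : ∀ w ∈ S, G w ≤ u w) {v : Cn m} (hl : 0 ≤ levz G v z) :
    Asub u z v := by
  have hlc : Continuous (line z v) := (contDiff_line z v).continuous
  have hz' : line z v 0 ∈ S := by
    rw [line_zero]
    exact hz
  have hS2 : IsOpen ((univ : Set ℝ) ×ˢ S) := isOpen_univ.prod hS
  have hG2 : ContDiffOn ℝ ∞ (fun q : ℝ × Cn m => G q.2) (univ ×ˢ S) :=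
    hG.comp contDiffOn_snd fun q hq => hq.2
  refine asub_of_touch hS hu hz (q := fun ζ => G (line z v ζ)) ?_ ?_ ?_ ?_
  · have h1 : ContDiffAt ℝ ∞ G (line z v 0) := hG.contDiffAt (hS.mem_nhds hz')
    exact (h1.comp 0 (contDiff_line z v).contDiffAt).of_le two_le_infty
  · rw [line_zero, h0]
  · have : ∀ᶠ ζ in 𝓝 (0 : ℂ), line z v ζ ∈ S :=
      hlc.continuousAt.eventually_mem (hS.mem_nhds hz')
    filter_upwards [this] with ζ hζ
    exact hle _ hζ
  · have h2 := lapC_line (f := fun q : ℝ × Cn m => G q.2) hS2 hG2 (t := 0) (z := z)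
      (v := v) (ζ := 0) ⟨mem_univ _, hz'⟩
    have h3 : lapC (fun ζ => G (line z v ζ)) 0 =
        4 * lev (fun q : ℝ × Cn m => G q.2) v (0, line z v 0) := h2
    rw [h3, lev_snd (g := G) hS hG hz', line_zero]
    exact mul_nonneg (by norm_num) hl

theorem asub_of_pshC {m : ℕ} {u : Cn m → ℝ} {V : Set (Cn m)} (hV : IsOpen V) (hu : PshC u V)
    {z : Cn m} (hz : z ∈ V) (v : Cn m) : Asub u z v := by
  intro ε hε
  have hlc : Continuous (line z v) := (contDiff_line z v).continuous
  have hV' : ∀ᶠ ζ in 𝓝 (0 : ℂ), line z v ζ ∈ V := by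
    refine hlc.continuousAt.eventually_mem (hV.mem_nhds ?_)
    rw [line_zero]
    exact hz
  obtain ⟨δ, hδ, hδs⟩ := Metric.nhds_basis_closedBall.eventually_iff.mp hV'
  filter_upwards [Ioc_mem_nhdsGT hδ] with s hs
  have h1 := hu.2 z (s • v) fun ζ hζ => by
    rw [line_smul]
    apply hδs
    rw [mem_closedBall_zero_iff, norm_mul, Complex.norm_real, Real.norm_of_nonneg hs.1.le]
    calc s * ‖ζ‖ ≤ s * 1 := mul_le_mul_of_nonneg_left hζ hs.1.le
      _ ≤ δ := by rw [mul_one]; exact hs.2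
  have h2 : cavg (fun ζ => u (line z (s • v) ζ)) 1 = cavg (fun ζ => u (line z v ζ)) s := by
    unfold cavg
    simp only [line_smul, Complex.ofReal_one, one_mul]
  rw [h2] at h1
  have : 0 ≤ ε * s ^ 2 := by positivity
  linarith

end Pool.Agent.KRFH

end

section

/-!
# Continuous plurisubharmonic functions from the asymptotic sub-mean value property

The asymptotic sub-mean value property is needed only off the zero set of a holomorphic function.
-/

open scoped ContDiff ENNReal ComplexOrder Topology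
open Set MeasureTheory Filter Pool.Agent.ToricKRF Pool.Agent.ToricKRF.G Pool.Agent.KRFS
  Pool.Agent.KRFF Pool.Agent.KRFG

namespace Pool.Agent.KRFH

namespace AsubN

variable {m : ℕ}

/-- a holomorphic function on a complex line -/
theorem diff_line {s : Cn m → ℂ} {U : Set (Cn m)} (hU : IsOpen U) (hs : NF.HolC s U)
    (z v : Cn m) : DifferentiableOn ℂ (fun ζ => s (line z v ζ)) (line z v ⁻¹' U) := by
  intro ζ hζ
  have h1 : HasFDerivAt s (fderiv ℝ s (line z v ζ)) (line z v ζ) :=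
    (NF.diffAt hU hs.1 hζ).hasFDerivAt
  have h2 := h1.comp ζ (hasFDerivAt_line z v ζ)
  have h3 : HasFDerivAt (𝕜 := ℂ) (fun ζ => s (line z v ζ))
      ((1 : ℂ →L[ℂ] ℂ).smulRight (fderiv ℝ s (line z v ζ) v)) ζ := by
    refine hasFDerivAt_of_restrictScalars ℝ h2 ?_
    ext w
    have h4 : w = (w.re : ℂ) + (w.im : ℂ) * Complex.I := (Complex.re_add_im w).symm
    have h5 := hs.2 _ hζ v
    simp only [ContinuousLinearMap.coe_restrictScalars', ContinuousLinearMap.smulRight_apply,
      one_apply_eq_self, ContinuousLinearMap.comp_apply, lineL_apply, map_add, map_smul,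
      Complex.real_smul, smul_eq_mul, h5]
    nth_rewrite 1 [h4]
    ring
  exact h3.differentiableAt.differentiableWithinAt

/-- the zeros in the closed disc of a holomorphic function are finite -/
theorem finite_zeros {g : ℂ → ℂ} {U : Set ℂ} (hU : IsOpen U) (hg : DifferentiableOn ℂ g U)
    (hB : Metric.closedBall 0 1 ⊆ U) (h0 : g 0 ≠ 0) :
    {ζ | ζ ∈ Metric.closedBall (0 : ℂ) 1 ∧ g ζ = 0}.Finite := by
  by_contra hinf
  obtain ⟨x, hx, hacc⟩ := Set.Infinite.exists_accPt_of_subset_isCompact hinf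
    (isCompact_closedBall (0 : ℂ) 1) fun ζ hζ => hζ.1
  have han : AnalyticOnNhd ℂ g (Metric.closedBall 0 1) := fun ζ hζ =>
    hg.analyticAt (hU.mem_nhds (hB hζ))
  have hfr : ∃ᶠ ζ in 𝓝[≠] x, g ζ = 0 := by
    have h1 := accPt_iff_frequently_nhdsNE.1 hacc
    exact h1.mono fun ζ hζ => hζ.2
  have h2 := han.eqOn_zero_of_preconnected_of_frequently_eq_zero
    (convex_closedBall (0 : ℂ) 1).isPreconnected hx hfr
  exact h0 (h2 (by simp))

theorem visc_line {u : Cn m → ℝ} {V : Set (Cn m)} (hu : ContinuousOn u V) {z v : Cn m}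
    (hz : ∀ ζ : ℂ, ‖ζ‖ ≤ 1 → line z v ζ ∈ V) {S : Set ℂ} (hS : S.Finite)
    (h : ∀ a ∈ Metric.ball (0 : ℂ) 1, a ∉ S → Asub u (line z v a) v) :
    u z ≤ cavg (fun ζ => u (line z v ζ)) 1 := by
  have h1 : u z = (fun ζ => u (line z v ζ)) 0 := by simp only [line_zero]
  rw [h1]
  refine visc_asub (u := fun ζ => u (line z v ζ)) ?_ hS fun a ha haS ε hε => ?_
  · refine hu.comp (contDiff_line z v).continuous.continuousOn fun ζ hζ => hz ζ ?_
    simpa using hζ
  · have h2 := h a ha haS ε hε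
    have h3 : (fun ζ => u (line (line z v a) v ζ)) = fun ξ => u (line z v (a + ξ)) := by
      funext ξ
      rw [line_add, line_eq (line z v a) v ξ]
    rw [h3] at h2
    exact h2

/-- the sub-mean value property passes to the limit of the centers -/
theorem limit {u : Cn m → ℝ} {V : Set (Cn m)} (hV : IsOpen V)
    (hu : ContinuousOn u V) {z v : Cn m} (hz : ∀ ζ : ℂ, ‖ζ‖ ≤ 1 → line z v ζ ∈ V)
    {A : Set (Cn m)} (hA : z ∈ closure A) (h : ∀ w ∈ A, (∀ ζ : ℂ, ‖ζ‖ ≤ 1 → line w v ζ ∈ V) →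
      u w ≤ cavg (fun ζ => u (line w v ζ)) 1) :
    u z ≤ cavg (fun ζ => u (line z v ζ)) 1 := by
  have : (𝓝[A] z).NeBot := mem_closure_iff_nhdsWithin_neBot.1 hA
  -- a compact neighbourhood of the closed disc
  have hcl : Continuous (line z v) := (contDiff_line z v).continuous
  have hK : IsCompact (line z v '' Metric.closedBall 0 1) :=
    (isCompact_closedBall (0 : ℂ) 1).image hcl
  have hKV : line z v '' Metric.closedBall 0 1 ⊆ V := by
    rintro _ ⟨ζ, hζ, rfl⟩
    exact hz ζ (by simpa using hζ)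
  obtain ⟨ρ, hρ, hρV⟩ := hK.exists_cthickening_subset_open hV hKV
  have hK' : IsCompact (Metric.cthickening ρ (line z v '' Metric.closedBall 0 1)) :=
    hK.cthickening
  obtain ⟨C, hC⟩ := hK'.exists_bound_of_continuousOn (hu.mono hρV)
  have hmem : ∀ w : Cn m, w ∈ Metric.closedBall z ρ → ∀ ζ : ℂ, ‖ζ‖ ≤ 1 → line w v ζ ∈
      Metric.cthickening ρ (line z v '' Metric.closedBall 0 1) := by
    intro w hw ζ hζ
    refine Metric.mem_cthickening_of_dist_le _ (line z v ζ) ρ _
      (mem_image_of_mem _ (by simpa using hζ)) ?_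
    rw [line_eq, line_eq, dist_add_right]
    exact hw
  have hsmall : ∀ᶠ w in 𝓝[A] z, w ∈ Metric.closedBall z ρ :=
    mem_nhdsWithin_of_mem_nhds (Metric.closedBall_mem_nhds z hρ)
  have hle : ∀ᶠ w in 𝓝[A] z, u w ≤ cavg (fun ζ => u (line w v ζ)) 1 := by
    filter_upwards [hsmall, self_mem_nhdsWithin] with w h1 h2
    exact h w h2 fun ζ hζ => hρV (hmem w h1 ζ hζ)
  -- limits
  have hlim1 : Tendsto u (𝓝[A] z) (𝓝 (u z)) := by
    have h0 : z ∈ V := by simpa [line_zero] using hz 0 (by simp)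
    exact (hu.continuousAt (hV.mem_nhds h0)).tendsto.mono_left nhdsWithin_le_nhds
  have hlim2 : Tendsto (fun w => cavg (fun ζ => u (line w v ζ)) 1)
      (𝓝[A] z) (𝓝 (cavg (fun ζ => u (line z v ζ)) 1)) := by
    simp only [cavg]
    refine Tendsto.const_mul _ ?_
    have hn : ∀ θ : ℝ, ‖((1 : ℝ) : ℂ) * Complex.exp (θ * Complex.I)‖ ≤ 1 := by
      intro θ; simp [Complex.norm_exp_ofReal_mul_I]
    refine intervalIntegral.tendsto_integral_filter_of_dominated_convergence (fun _ => C) ?_ ?_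
      intervalIntegrable_const ?_
    · filter_upwards [hsmall] with w hw
      have h3 : ContinuousOn (fun θ : ℝ => u (line w v
          (((1 : ℝ) : ℂ) * Complex.exp (θ * Complex.I)))) univ := by
        refine hu.comp (f := fun θ : ℝ => line w v
          (((1 : ℝ) : ℂ) * Complex.exp (θ * Complex.I))) ?_ fun θ _ => hρV (hmem w hw _ (hn θ))
        refine Continuous.continuousOn ((contDiff_line _ v).continuous.comp ?_)
        fun_prop
      exact (continuousOn_univ.1 h3).aestronglyMeasurable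
    · filter_upwards [hsmall] with w hw
      refine Eventually.of_forall fun θ _ => hC _ (hmem w hw _ (hn θ))
    · refine Eventually.of_forall fun θ _ => ?_
      have h0 := hz _ (hn θ)
      have h1 : Continuous fun w : Cn m => line w v
          (((1 : ℝ) : ℂ) * Complex.exp (θ * Complex.I)) := by
        simp only [line_eq]
        fun_prop
      exact ((hu.continuousAt (hV.mem_nhds h0)).tendsto.comp (h1.tendsto z)).mono_left
        nhdsWithin_le_nhds
  exact le_of_tendsto_of_tendsto hlim1 hlim2 hle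

end AsubN

open AsubN in
/-- **continuous psh functions from the asymptotic sub-mean value property off the zero sets of
holomorphic functions** -/
theorem pshC_of_asub {m : ℕ} {u : Cn m → ℝ} {V : Set (Cn m)} (hV : IsOpen V)
    (hu : ContinuousOn u V)
    (h : ∀ z₀ ∈ V, ∃ (U : Set (Cn m)) (s : Cn m → ℂ), IsOpen U ∧ z₀ ∈ U ∧ NF.HolC s U ∧
      U ⊆ closure {w | w ∈ U ∧ s w ≠ 0} ∧
      ∀ z ∈ U, z ∈ V → s z ≠ 0 → ∀ v, Asub u z v) : PshC u V := by
  have hall : ∀ z ∈ V, ∀ v, Asub u z v := by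
    intro z₀ hz₀ v₀
    obtain ⟨U, s, hU, hzU, hs, hcl, hA⟩ := h z₀ hz₀
    refine asub_of_pshC (hU.inter hV) ⟨hu.mono inter_subset_right, fun z v hz => ?_⟩
      ⟨hzU, hz₀⟩ v₀
    have hzU' : z ∈ U := by simpa [line_zero] using (hz 0 (by simp)).1
    refine limit (hU.inter hV) (hu.mono inter_subset_right) hz (hcl hzU') fun w hw hw' => ?_
    have hfin := finite_zeros (hU.preimage (contDiff_line w v).continuous) (diff_line hU hs w v)
      (fun ζ hζ => (hw' ζ (by simpa using hζ)).1) (by rw [line_zero]; exact hw.2)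
    refine visc_line (hu.mono inter_subset_right) hw' hfin fun a ha haS => ?_
    have ha1 : ‖a‖ ≤ 1 := by
      have : ‖a‖ < 1 := by simpa using ha
      exact this.le
    refine hA _ (hw' a ha1).1 (hw' a ha1).2 (fun h0 => haS ⟨?_, h0⟩) v
    simpa using ha1
  refine ⟨hu, fun z v hz => ?_⟩
  refine visc_line hu hz Set.finite_empty fun a ha _ => hall _ (hz a ?_) v
  have : ‖a‖ < 1 := by simpa using ha
  exact this.le

end Pool.Agent.KRFH

end
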